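import Pool.Agent.MP_3d716e_an.H63.Spec

/-! Test functions on the disc for the buckling quotient. -/

set_option autoImplicit false
open MeasureTheory Set Real Filter Topology
open Pool.Agent.MP_3d716e_an.H83 Pool.Agent.MP_3d716e_an.H63

namespace Pool.Agent.MP_3d716e_an.H88

noncomputable def chi (x : ℝ) : ℝ := Real.smoothTransition (x - 1)

lemma chi_cd : ContDiff ℝ (⊤ : ℕ∞) chi :=
  Real.smoothTransition.contDiff.comp (contDiff_id.sub contDiff_const)

lemma chi_zero {x : ℝ} (h : x ≤ 1) : chi x = 0 :=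
  Real.smoothTransition.zero_of_nonpos (by linarith)

lemma chi_one {x : ℝ} (h : 2 ≤ x) : chi x = 1 :=
  Real.smoothTransition.one_of_one_le (by linarith)

lemma chi_abs (x : ℝ) : |chi x| ≤ 1 := by
  rw [abs_le]
  exact ⟨by linarith [Real.smoothTransition.nonneg (x - 1), show chi x = Real.smoothTransition (x - 1) from rfl], Real.smoothTransition.le_one _⟩

lemma chi_cd1 : ContDiff ℝ (⊤ : ℕ∞) (deriv chi) := chi_cd.iterate_deriv 1

lemma chi_cd2 : ContDiff ℝ (⊤ : ℕ∞) (deriv (deriv chi)) := chi_cd1.iterate_deriv 1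

lemma chi_bd : ∃ M : ℝ, 0 ≤ M ∧ ∀ x, 0 ≤ x →
    |deriv chi x| * x ≤ M ∧ |deriv (deriv chi) x| * x ^ 2 ≤ M := by
  have c1 : Continuous fun x => |deriv chi x| * x := chi_cd1.continuous.abs.mul continuous_id
  have c2 : Continuous fun x => |deriv (deriv chi) x| * x ^ 2 :=
    chi_cd2.continuous.abs.mul (continuous_id.pow 2)
  obtain ⟨M1, h1⟩ := (isCompact_Icc (a := (0 : ℝ)) (b := 2)).exists_bound_of_continuousOn
    c1.continuousOn
  obtain ⟨M2, h2⟩ := (isCompact_Icc (a := (0 : ℝ)) (b := 2)).exists_bound_of_continuousOn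
    c2.continuousOn
  refine ⟨|M1| + |M2|, by positivity, fun x hx => ?_⟩
  have a1 := abs_nonneg M1
  have a2 := abs_nonneg M2
  rcases le_or_gt x 2 with h | h
  · have k1 := (le_abs_self _).trans ((h1 x ⟨hx, h⟩).trans (le_abs_self M1))
    have k2 := (le_abs_self _).trans ((h2 x ⟨hx, h⟩).trans (le_abs_self M2))
    constructor <;> linarith
  · have e : chi =ᶠ[𝓝 x] fun _ => 1 := by
      filter_upwards [lt_mem_nhds h] with y hy using chi_one hy.le
    have e1 : deriv chi =ᶠ[𝓝 x] fun _ => 0 := by simpa using e.deriv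
    have e2 : deriv (deriv chi) =ᶠ[𝓝 x] fun _ => 0 := by simpa using e1.deriv
    rw [e1.eq_of_nhds, e2.eq_of_nhds]
    simp only [abs_zero, zero_mul]
    constructor <;> linarith

/-- Cutting off a function with a double zero at `1`. -/
lemma oneD {u u1 u2 : ℝ → ℝ} (hu : ContDiff ℝ (⊤ : ℕ∞) u) (h1 : ∀ s, HasDerivAt u (u1 s) s)
    (h2 : ∀ s, HasDerivAt u1 (u2 s) s) (c2 : Continuous u2) (z0 : u 1 = 0) (z1 : u1 1 = 0) :
    ∃ C : ℝ, ∀ d : ℝ, 0 < d → ∃ w w1 w2 : ℝ → ℝ, ContDiff ℝ (⊤ : ℕ∞) w ∧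
      (∀ s, HasDerivAt w (w1 s) s) ∧ (∀ s, HasDerivAt w1 (w2 s) s) ∧
      (∀ s, 1 - d < s → w s = 0 ∧ w1 s = 0 ∧ w2 s = 0) ∧
      (∀ s, s < 1 - 2 * d → w s = u s ∧ w1 s = u1 s ∧ w2 s = u2 s) ∧
      ∀ s, 0 ≤ s → s ≤ 1 → |w s| ≤ C ∧ |w1 s| ≤ C ∧ |w2 s| ≤ C := by
  obtain ⟨M, hM0, hM⟩ := chi_bd
  obtain ⟨K0, hK0⟩ := (isCompact_Icc (a := (0 : ℝ)) (b := 1)).exists_bound_of_continuousOn
    c2.continuousOn
  set K := |K0|
  have K0' : 0 ≤ K := abs_nonneg _
  have b2 : ∀ s, 0 ≤ s → s ≤ 1 → |u2 s| ≤ K := fun s a b => (hK0 s ⟨a, b⟩).trans (le_abs_self _)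
  have mv : ∀ (g g' : ℝ → ℝ) (s B : ℝ), s ≤ 1 → (∀ t, HasDerivAt g (g' t) t) → g 1 = 0 →
      (∀ t, s ≤ t → t ≤ 1 → |g' t| ≤ B) → |g s| ≤ B * (1 - s) := fun g g' s B hs hg g1 hB => by
    have := (convex_Icc s 1).norm_image_sub_le_of_norm_hasDerivWithin_le (f := g) (f' := g')
      (C := B) (fun t _ => (hg t).hasDerivWithinAt) (fun t ht => hB t ht.1 ht.2)
      (right_mem_Icc.2 hs) (left_mem_Icc.2 hs)
    rw [g1, sub_zero, Real.norm_eq_abs, Real.norm_eq_abs, abs_sub_comm,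
      abs_of_nonneg (by linarith : 0 ≤ 1 - s)] at this
    exact this
  have b1 : ∀ s, 0 ≤ s → s ≤ 1 → |u1 s| ≤ K * (1 - s) := fun s a b =>
    mv u1 u2 s K b h2 z1 fun t c e => b2 t (a.trans c) e
  have b0 : ∀ s, 0 ≤ s → s ≤ 1 → |u s| ≤ K * (1 - s) * (1 - s) := fun s a b =>
    mv u u1 s _ b h1 z0 fun t c e => (b1 t (a.trans c) e).trans (by gcongr)
  refine ⟨K * (3 * M + 1), fun d hd => ?_⟩
  have dX : ∀ s : ℝ, HasDerivAt (fun s : ℝ => (1 - s) / d) (-1 / d) s := fun s =>
    ((hasDerivAt_id s).const_sub 1).div_const d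
  have d0 : ∀ s : ℝ, HasDerivAt (fun s => chi ((1 - s) / d))
      (deriv chi ((1 - s) / d) * (-1 / d)) s := fun s =>
    (chi_cd.differentiable (by simp) _).hasDerivAt.comp s (dX s)
  have d1 : ∀ s : ℝ, HasDerivAt (fun s => deriv chi ((1 - s) / d))
      (deriv (deriv chi) ((1 - s) / d) * (-1 / d)) s := fun s =>
    (chi_cd1.differentiable (by simp) _).hasDerivAt.comp s (dX s)
  set w : ℝ → ℝ := fun s => chi ((1 - s) / d) * u s with hw
  set w1 : ℝ → ℝ := fun s => deriv chi ((1 - s) / d) * (-1 / d) * u s +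
    chi ((1 - s) / d) * u1 s with hw1
  set w2 : ℝ → ℝ := fun s => deriv (deriv chi) ((1 - s) / d) * (1 / d ^ 2) * u s +
    2 * (deriv chi ((1 - s) / d) * (-1 / d) * u1 s) + chi ((1 - s) / d) * u2 s with hw2
  have D1 : ∀ s, HasDerivAt w (w1 s) s := fun s => (d0 s).mul (h1 s)
  have D2 : ∀ s, HasDerivAt w1 (w2 s) s := fun s => by
    refine ((((d1 s).mul_const (-1 / d)).mul (h1 s)).add ((d0 s).mul (h2 s))).congr_deriv ?_
    simp only [hw2]
    field_simp
    ring
  have loc : ∀ (g g1 g2 : ℝ → ℝ) (s : ℝ), (∀ t, HasDerivAt g (g1 t) t) →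
      (∀ t, HasDerivAt g1 (g2 t) t) → w =ᶠ[𝓝 s] g → w s = g s ∧ w1 s = g1 s ∧ w2 s = g2 s :=
    fun g g1 g2 s a b e => by
    have e1 : w1 =ᶠ[𝓝 s] g1 := by
      have := e.deriv
      rwa [show deriv w = w1 from funext fun t => (D1 t).deriv,
        show deriv g = g1 from funext fun t => (a t).deriv] at this
    have e2 := e1.deriv_eq
    rw [(D2 s).deriv, (b s).deriv] at e2
    exact ⟨e.eq_of_nhds, e1.eq_of_nhds, e2⟩
  refine ⟨w, w1, w2, (chi_cd.comp ((contDiff_const.sub contDiff_id).div_const d)).mul hu, D1, D2,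
    fun s hs => ?_, fun s hs => ?_, fun s a b => ?_⟩
  · refine loc (fun _ => 0) (fun _ => 0) (fun _ => 0) s (fun t => hasDerivAt_const t 0)
      (fun t => hasDerivAt_const t 0) ?_
    filter_upwards [lt_mem_nhds hs] with t ht
    simp only [hw]
    rw [chi_zero (by rw [div_le_one hd]; linarith), zero_mul]
  · refine loc u u1 u2 s h1 h2 ?_
    filter_upwards [gt_mem_nhds hs] with t ht
    simp only [hw]
    rw [chi_one (by rw [le_div_iff₀ hd]; linarith), one_mul]
  · set x := (1 - s) / d with hx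
    have x0 : 0 ≤ x := div_nonneg (by linarith) hd.le
    have ex : 1 - s = x * d := by rw [hx]; field_simp
    obtain ⟨m1, m2⟩ := hM x x0
    have c0 := chi_abs x
    have t0 := b0 s a b
    have t1 := b1 s a b
    have t2 := b2 s a b
    have s1 : 1 - s ≤ 1 := by linarith
    have s0 : 0 ≤ 1 - s := by linarith
    have t0' : |u s| ≤ K * (1 - s) := t0.trans (by nlinarith [mul_nonneg K0' s0])
    have KM := mul_nonneg K0' hM0
    have q : ∀ v : ℝ, |v| ≤ K → |chi x * v| ≤ K := fun v hv => by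
      rw [abs_mul]; nlinarith [abs_nonneg v, abs_nonneg (chi x)]
    have q1 : ∀ v : ℝ, |v| ≤ K * (1 - s) → |deriv chi x * (-1 / d) * v| ≤ K * M := fun v hv => by
      rw [abs_mul, abs_mul, abs_div, abs_neg, abs_one, abs_of_pos hd]
      calc _ ≤ |deriv chi x| * (1 / d) * (K * (1 - s)) := by gcongr
        _ = K * (|deriv chi x| * x) := by rw [ex]; field_simp
        _ ≤ _ := by gcongr
    have q2 : |deriv (deriv chi) x * (1 / d ^ 2) * u s| ≤ K * M := by
      rw [abs_mul, abs_mul, abs_of_pos (by positivity : 0 < 1 / d ^ 2)]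
      calc _ ≤ |deriv (deriv chi) x| * (1 / d ^ 2) * (K * (1 - s) * (1 - s)) := by gcongr
        _ = K * (|deriv (deriv chi) x| * x ^ 2) := by rw [ex]; field_simp
        _ ≤ _ := by gcongr
    have Ks : K * (1 - s) ≤ K := by nlinarith
    have r0 := abs_le.1 (q _ (t0'.trans Ks))
    have r1 := abs_le.1 (q _ (t1.trans Ks))
    have r2 := abs_le.1 (q _ t2)
    have r3 := abs_le.1 (q1 _ t0')
    have r4 := abs_le.1 (q1 _ t1)
    have r5 := abs_le.1 q2
    simp only [hw, hw1, hw2, ← hx, abs_le]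
    refine ⟨⟨?_, ?_⟩, ⟨?_, ?_⟩, ?_, ?_⟩ <;> linarith [r0.1, r0.2, r1.1, r1.2, r2.1, r2.2, r3.1, r3.2, r4.1, r4.2, r5.1, r5.2]

noncomputable def rho (r : ℝ) (p : P) : ℝ := (p.1 ^ 2 + p.2 ^ 2) / r ^ 2

lemma rho_cont (r : ℝ) : Continuous (rho r) := by unfold rho; fun_prop

lemma rho_nonneg (r : ℝ) (p : P) : 0 ≤ rho r p := by unfold rho; positivity

lemma rho_fd (r : ℝ) {w w1 : ℝ → ℝ} (h : ∀ s, HasDerivAt w (w1 s) s) (p : P) :
    ∃ D : P →L[ℝ] ℝ, HasFDerivAt (fun p => w (rho r p)) D p ∧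
      ∀ v : P, D v = w1 (rho r p) * (2 * (p.1 * v.1 + p.2 * v.2) / r ^ 2) := by
  have h0 := (((hasFDerivAt_fst (𝕜 := ℝ) (p := p)).pow 2).add
    ((hasFDerivAt_snd (𝕜 := ℝ) (p := p)).pow 2)).mul_const (r ^ 2)⁻¹
  have h1 : HasFDerivAt (rho r) _ p := h0
  refine ⟨_, (h (rho r p)).comp_hasFDerivAt p h1, fun v => ?_⟩
  simp
  ring

lemma norm_gt {r : ℝ} (hr : 0 < r) {p : P} (h : r < ‖p‖) : 1 < rho r p := by
  unfold rho
  rw [one_lt_div (by positivity)]
  rw [Prod.norm_def, lt_max_iff, Real.norm_eq_abs, Real.norm_eq_abs] at h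
  rcases h with h | h
  · nlinarith [sq_abs p.1, sq_nonneg p.2]
  · nlinarith [sq_abs p.2, sq_nonneg p.1]

lemma radial {r : ℝ} (hr : 0 < r) {w w1 w2 : ℝ → ℝ} (h1 : ∀ s, HasDerivAt w (w1 s) s)
    (h2 : ∀ s, HasDerivAt w1 (w2 s) s) (p : P) :
    g2 (fun p => w (rho r p)) p = 4 / r ^ 2 * (rho r p * w1 (rho r p) ^ 2) ∧
    dx (dx fun p => w (rho r p)) p + dy (dy fun p => w (rho r p)) p =
      4 / r ^ 2 * (rho r p * w2 (rho r p) + w1 (rho r p)) := by
  have ex : dx (fun p => w (rho r p)) = fun p => w1 (rho r p) * (2 / r ^ 2 * p.1) := by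
    funext q
    obtain ⟨D, hD, e⟩ := rho_fd r h1 q
    rw [dx, hD.fderiv, e]; ring
  have ey : dy (fun p => w (rho r p)) = fun p => w1 (rho r p) * (2 / r ^ 2 * p.2) := by
    funext q
    obtain ⟨D, hD, e⟩ := rho_fd r h1 q
    rw [dy, hD.fderiv, e]; ring
  obtain ⟨D, hD, e⟩ := rho_fd r h2 p
  have a1 := (hD.mul ((hasFDerivAt_fst (𝕜 := ℝ) (p := p)).const_mul (2 / r ^ 2))).fderiv
  have a2 := (hD.mul ((hasFDerivAt_snd (𝕜 := ℝ) (p := p)).const_mul (2 / r ^ 2))).fderiv
  constructor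
  · rw [g2, ex, ey]; unfold rho; field_simp; ring
  · rw [ex, ey, dx, dy]
    change fderiv ℝ ((fun p => w1 (rho r p)) * fun p : P => 2 / r ^ 2 * p.1) p (1, 0) +
      fderiv ℝ ((fun p => w1 (rho r p)) * fun p : P => 2 / r ^ 2 * p.2) p (0, 1) = _
    rw [a1, a2]
    simp [e]
    unfold rho; field_simp; ring

lemma energy {f : P → ℝ} (hf : ContDiff ℝ 2 f) (hc : HasCompactSupport f) (a b : ℝ) :
    ∫ p, (dx (dx f) p + dy (dy f) p) * ((dx (dx f) p + dy (dy f) p) + a * f p - b) =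
      (∫ p, (dx (dx f) p + dy (dy f) p) ^ 2) - a * ∫ p, g2 f p := by
  have hx : ContDiff ℝ 1 (dx f) := cd_dx hf (by norm_num)
  have hy : ContDiff ℝ 1 (dy f) := cd_dy hf (by norm_num)
  have hf1 : ContDiff ℝ 1 f := hf.of_le (by norm_num)
  have k1 : ∫ p, f p * dx (dx f) p = -∫ p, dx f p * dx f p := ibp hf1 hx (cs_dx hc) (1, 0)
  have k2 : ∫ p, f p * dy (dy f) p = -∫ p, dy f p * dy f p := ibp hf1 hy (cs_dy hc) (0, 1)
  have k3 : ∫ p, dx (dx f) p = 0 := int_fd hx (cs_dx hc) (1, 0)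
  have k4 : ∫ p, dy (dy f) p = 0 := int_fd hy (cs_dy hc) (0, 1)
  have cX := cont_dx hx
  have cZ := cont_dy hy
  have sX := cs_dx (cs_dx hc)
  have sZ := cs_dy (cs_dy hc)
  have i0 : Integrable fun p => (dx (dx f) p + dy (dy f) p) ^ 2 := by
    simp only [sq]
    exact imul (cX.add cZ) (cX.add cZ) (sX.add sZ)
  have i1 := imul hf.continuous cX sX
  have i2 := imul hf.continuous cZ sZ
  have i3 := cX.integrable_of_hasCompactSupport (μ := volume) sX
  have i4 := cZ.integrable_of_hasCompactSupport (μ := volume) sZ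
  have k5 : ∫ p, g2 f p = (∫ p, dx f p * dx f p) + ∫ p, dy f p * dy f p := by
    rw [← integral_add (imul hx.continuous hx.continuous (cs_dx hc))
      (imul hy.continuous hy.continuous (cs_dy hc))]
    simp only [g2, sq]
  have e : ∀ p, (dx (dx f) p + dy (dy f) p) * ((dx (dx f) p + dy (dy f) p) + a * f p - b) =
      (dx (dx f) p + dy (dy f) p) ^ 2 + (a * (f p * dx (dx f) p + f p * dy (dy f) p) +
        (-b) * (dx (dx f) p + dy (dy f) p)) := fun p => by ring
  simp only [e]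
  rw [integral_add i0 (iadd ((iadd i1 i2).const_mul a) ((iadd i3 i4).const_mul _)),
    integral_add ((iadd i1 i2).const_mul a) ((iadd i3 i4).const_mul _), integral_const_mul,
    integral_const_mul, integral_add i1 i2, integral_add i3 i4, k1, k2, k3, k4, k5]
  ring

noncomputable def eP : P ≃L[ℝ] EuclideanSpace ℝ (Fin 2) :=
  (ContinuousLinearEquiv.finTwoArrow ℝ ℝ).symm.trans (EuclideanSpace.equiv (Fin 2) ℝ).symm

lemma norm_eP (p : P) : ‖eP p‖ ^ 2 = p.1 ^ 2 + p.2 ^ 2 := by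
  rw [EuclideanSpace.real_norm_sq_eq, Fin.sum_univ_two]
  simp [eP]

lemma transfer {u : EuclideanSpace ℝ (Fin 2) → ℝ} (hu : ContDiff ℝ 2 u) :
    ∫ x, ‖fderiv ℝ u x‖ ^ 2 = ∫ p, g2 (fun p => u (eP p)) p ∧
    ∫ x, (∑ i : Fin 2, iteratedFDeriv ℝ 2 u x (fun _ => EuclideanSpace.single i (1 : ℝ))) ^ 2 =
      ∫ p, (dx (dx fun p => u (eP p)) p + dy (dy fun p => u (eP p)) p) ^ 2 := by
  set e := eP with he
  have hm : MeasurePreserving e volume volume :=
    (PiLp.volume_preserving_toLp (Fin 2)).comp ((volume_preserving_finTwoArrow ℝ).symm _)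
  have hemb : MeasurableEmbedding e := e.toHomeomorph.measurableEmbedding
  have hI : ∀ F : EuclideanSpace ℝ (Fin 2) → ℝ, ∫ p, F (e p) = ∫ x, F x :=
    fun F => hm.integral_comp hemb F
  have e1 : e (1, 0) = EuclideanSpace.single 0 1 := by
    ext i; fin_cases i <;> simp [he, eP]
  have e2 : e (0, 1) = EuclideanSpace.single 1 1 := by
    ext i; fin_cases i <;> simp [he, eP]
  have hf : ∀ (g : EuclideanSpace ℝ (Fin 2) → ℝ) (p v : P),
      fderiv ℝ (fun p => g (e p)) p v = fderiv ℝ g (e p) (e v) := fun g p v => by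
    have := e.comp_right_fderiv (f := g) (x := p)
    have h2 : (fun p => g (e p)) = g ∘ e := rfl
    rw [h2, this]; rfl
  have hd : ∀ (x v : EuclideanSpace ℝ (Fin 2)), fderiv ℝ (fun y => fderiv ℝ u y v) x v =
      iteratedFDeriv ℝ 2 u x (fun _ => v) := fun x v => by
    have h : DifferentiableAt ℝ (fderiv ℝ u) x :=
      ((hu.fderiv_right (m := 1) (by norm_num)).differentiable one_ne_zero) x
    rw [fderiv_clm_apply h (differentiableAt_const _), iteratedFDeriv_two_apply]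
    simp
  have ex : dx (fun p => u (e p)) = fun p => fderiv ℝ u (e p) (EuclideanSpace.single 0 1) := by
    funext p; rw [dx, hf, e1]
  have ey : dy (fun p => u (e p)) = fun p => fderiv ℝ u (e p) (EuclideanSpace.single 1 1) := by
    funext p; rw [dy, hf, e2]
  have g1 : ∀ p, g2 (fun p => u (e p)) p = ‖fderiv ℝ u (e p)‖ ^ 2 := fun p => by
    rw [g2, ex, ey, (EuclideanSpace.basisFun (Fin 2) ℝ).norm_dual]
    simp
  have g3 : ∀ p, dx (dx fun p => u (e p)) p + dy (dy fun p => u (e p)) p =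
      ∑ i : Fin 2, iteratedFDeriv ℝ 2 u (e p) (fun _ => EuclideanSpace.single i (1 : ℝ)) :=
    fun p => by
    rw [ex, ey, dx, dy, hf (fun y => fderiv ℝ u y (EuclideanSpace.single 0 1)),
      hf (fun y => fderiv ℝ u y (EuclideanSpace.single 1 1)), e1, e2, hd, hd, Fin.sum_univ_two]
  simp only [g1, g3]
  exact ⟨(hI fun x => ‖fderiv ℝ u x‖ ^ 2).symm, (hI fun x => (∑ i : Fin 2, iteratedFDeriv ℝ 2 u x
      (fun _ => EuclideanSpace.single i (1 : ℝ))) ^ 2).symm⟩

theorem up : UpStmt := by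
  intro L hL hF1 hF0 r hr ε hε
  set u0 : ℝ → ℝ := fun s => (1 - F 0 (L * s) / F 0 L) / L with hu0
  set u1 : ℝ → ℝ := fun s => F 1 (L * s) / (4 * F 0 L) with hu1
  set u2 : ℝ → ℝ := fun s => -(L * F 2 (L * s)) / (16 * F 0 L) with hu2
  have dF : ∀ (n : ℕ) (s : ℝ), HasDerivAt (fun s => F n (L * s))
      (-(1 / 4) * F (n + 1) (L * s) * (L * 1)) s := fun n s =>
    (hasDerivAt_F n (L * s)).comp s ((hasDerivAt_id s).const_mul L)
  have cF : ∀ n : ℕ, ContDiff ℝ (⊤ : ℕ∞) fun s => F n (L * s) := fun n =>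
    (contDiff_F n).comp (contDiff_const.mul contDiff_id)
  have h1 : ∀ s, HasDerivAt u0 (u1 s) s := fun s => by
    refine ((((dF 0 s).div_const (F 0 L)).const_sub 1).div_const L).congr_deriv ?_
    simp only [hu1]; field_simp
  have h2 : ∀ s, HasDerivAt u1 (u2 s) s := fun s => by
    refine ((dF 1 s).div_const (4 * F 0 L)).congr_deriv ?_
    simp only [hu2]; field_simp; ring
  have ode : ∀ s, 4 * (s * u2 s + u1 s) + L * u0 s = 1 := fun s => by
    have := F_rec 0 (L * s)
    simp only [hu0, hu1, hu2]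
    rw [this]; field_simp; ring
  have c1 : Continuous u1 := (cF 1).continuous.div_const _
  obtain ⟨C, hC⟩ := oneD (u := u0) (u1 := u1) (u2 := u2)
    ((contDiff_const.sub ((cF 0).div_const _)).div_const _) h1 h2
    ((continuous_const.mul (cF 2).continuous).neg.div_const _)
    (by simp [hu0, hF0]) (by simp [hu1, hF1])
  have dpos : ∀ n : ℕ, (0 : ℝ) < 1 / (n + 4) := fun n => by positivity
  have dle : ∀ n : ℕ, (1 : ℝ) / (n + 4) ≤ 1 / 4 := fun n => by
    gcongr; linarith [(n.cast_nonneg : (0 : ℝ) ≤ n)]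
  choose w w1 w2 cw D1 D2 wz we wb using fun n : ℕ => hC _ (dpos n)
  let Φ : ℕ → P → ℝ := fun n p => 4 / r ^ 2 * (rho r p * w2 n (rho r p) + w1 n (rho r p)) *
    (4 / r ^ 2 * (rho r p * w2 n (rho r p) + w1 n (rho r p)) + L / r ^ 2 * w n (rho r p) -
      1 / r ^ 2)
  have cf : ∀ n, ContDiff ℝ 2 fun p => w n (rho r p) := fun n =>
    (contDiff_infty.1 (cw n) 2).comp (by unfold rho; fun_prop)
  have sf : ∀ n, HasCompactSupport fun p => w n (rho r p) := fun n =>
    cs_of_R (R := r) fun p hp => (wz n _ (by linarith [norm_gt hr hp, dpos n])).1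
  have eΦ : ∀ n, Φ n = fun p => (dx (dx fun p => w n (rho r p)) p + dy (dy fun p => w n (rho r p)) p)
      * ((dx (dx fun p => w n (rho r p)) p + dy (dy fun p => w n (rho r p)) p) +
        L / r ^ 2 * w n (rho r p) - 1 / r ^ 2) := fun n => by
    funext p; rw [(radial hr (D1 n) (D2 n) p).2]
  have Φz : ∀ n p, 1 ≤ rho r p → Φ n p = 0 := fun n p hp => by
    obtain ⟨-, a, b⟩ := wz n (rho r p) (by linarith [dpos n])
    simp only [Φ, a, b]; ring
  have lim : Tendsto (fun n => ∫ p, Φ n p) atTop (𝓝 (∫ _ : P, (0 : ℝ))) := by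
    set A := 4 / r ^ 2 * (2 * C)
    refine tendsto_integral_of_dominated_convergence
      ((Metric.closedBall (0 : P) r).indicator fun _ => A * (A + L / r ^ 2 * C + 1 / r ^ 2))
      (fun n => ?_) ?_ (fun n => ae_of_all _ fun p => ?_) (ae_of_all _ fun p => ?_)
    · have cX := cont_dx (cd_dx (cf n) (m := 1) (by norm_num))
      have cZ := cont_dy (cd_dy (cf n) (m := 1) (by norm_num))
      rw [eΦ]
      exact ((cX.add cZ).mul (((cX.add cZ).add (continuous_const.mul (cf n).continuous)).sub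
        continuous_const)).aestronglyMeasurable
    · exact (integrable_indicator_iff measurableSet_closedBall).2
        (integrableOn_const measure_closedBall_lt_top.ne)
    · have C0 : 0 ≤ C := (abs_nonneg _).trans (wb n 0 le_rfl zero_le_one).1
      rcases le_or_gt 1 (rho r p) with h | h
      · rw [Φz n p h, norm_zero]
        exact indicator_nonneg (fun _ _ => by positivity) p
      · have hp : p ∈ Metric.closedBall (0 : P) r := by
          rw [mem_closedBall_zero_iff]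
          by_contra h'
          linarith [norm_gt hr (not_le.1 h')]
        rw [indicator_of_mem hp]
        have s0 := rho_nonneg r p
        obtain ⟨b0, b1, b2⟩ := wb n _ s0 h.le
        have b3 : |4 / r ^ 2 * (rho r p * w2 n (rho r p) + w1 n (rho r p))| ≤ A := by
          rw [abs_mul, abs_of_pos (by positivity : 0 < 4 / r ^ 2)]
          refine mul_le_mul_of_nonneg_left ((abs_add_le _ _).trans ?_) (by positivity)
          rw [abs_mul, abs_of_nonneg s0]
          nlinarith [abs_nonneg (w2 n (rho r p))]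
        have b4 : |L / r ^ 2 * w n (rho r p)| ≤ L / r ^ 2 * C := by
          rw [abs_mul, abs_of_pos (by positivity : 0 < L / r ^ 2)]; gcongr
        simp only [Φ]
        rw [Real.norm_eq_abs, abs_mul]
        refine mul_le_mul b3 ((abs_sub _ _).trans ?_) (abs_nonneg _) (by positivity)
        rw [abs_of_pos (by positivity : 0 < 1 / r ^ 2)]
        linarith [abs_add_le (4 / r ^ 2 * (rho r p * w2 n (rho r p) + w1 n (rho r p)))
          (L / r ^ 2 * w n (rho r p))]
    · refine tendsto_const_nhds.congr' ?_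
      rcases le_or_gt 1 (rho r p) with h | h
      · exact Eventually.of_forall fun n => (Φz n p h).symm
      · have t : Tendsto (fun n : ℕ => 1 - 2 * (1 / ((n : ℝ) + 4))) atTop (𝓝 (1 - 2 * 0)) :=
          (((tendsto_natCast_atTop_atTop.atTop_add tendsto_const_nhds).const_div_atTop
            1).const_mul 2).const_sub 1
        filter_upwards [t.eventually (lt_mem_nhds (show rho r p < 1 - 2 * 0 by linarith))] with n hn
        obtain ⟨a, b, c⟩ := we n _ hn
        have := ode (rho r p)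
        simp only [Φ, a, b, c]
        rw [eq_comm]
        refine mul_eq_zero_of_right _ ?_
        field_simp
        linarith
  let h : P → ℝ := fun p => 4 / r ^ 2 * (rho r p * u1 (rho r p) ^ 2) * max 0 (1 / 2 - rho r p)
  have ch : Continuous h := by
    have := rho_cont r
    simp only [h]; fun_prop
  have sh : HasCompactSupport h := cs_of_R (R := r) fun p hp => by
    simp only [h]
    rw [max_eq_left (by linarith [norm_gt hr hp]), mul_zero]
  have h0 : ∀ p, 0 ≤ h p := fun p => by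
    have := rho_nonneg r p
    simp only [h]; positivity
  have hpos : 0 < ∫ p, h p := by
    have a : u1 0 ≠ 0 := by simp [hu1, F_zero, hF0]
    have b : ∀ᶠ s in 𝓝[>] (0 : ℝ), u1 s ≠ 0 ∧ s < 1 / 2 :=
      ((c1.continuousAt.eventually_ne a).and (gt_mem_nhds (by norm_num))).filter_mono
        nhdsWithin_le_nhds
    obtain ⟨s, ⟨s1, s2⟩, s0⟩ := (b.and self_mem_nhdsWithin).exists
    have s0' : 0 < s := s0
    have e : rho r (r * √s, 0) = s := by
      unfold rho
      rw [mul_pow, sq_sqrt s0'.le]; field_simp; ring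
    refine ch.integral_pos_of_hasCompactSupport_nonneg_nonzero (x := (r * √s, 0)) sh h0 ?_
    simp only [h, e]
    rw [max_eq_right (by linarith)]
    have : 0 < 1 / 2 - s := by linarith
    positivity
  have hle : ∀ n, ∫ p, h p ≤ ∫ p, g2 (fun p => w n (rho r p)) p := fun n => by
    refine integral_mono (ch.integrable_of_hasCompactSupport sh)
      (int_g2 ((cf n).of_le (by norm_num)) (sf n)) fun p => ?_
    rcases le_or_gt (1 / 2) (rho r p) with k | k
    · simp only [h]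
      rw [max_eq_left (by linarith), mul_zero]
      exact g2_nonneg _ _
    · have s0 := rho_nonneg r p
      simp only [h]
      rw [(radial hr (D1 n) (D2 n) p).1, (we n _ (by linarith [dle n])).2.1]
      exact mul_le_of_le_one_right (by positivity) (max_le zero_le_one (by linarith))
  rw [integral_zero] at lim
  obtain ⟨n, hn⟩ := (lim.eventually (gt_mem_nhds (mul_pos hε hpos))).exists
  have cu : ContDiff ℝ (⊤ : ℕ∞) fun x : EuclideanSpace ℝ (Fin 2) => w n (‖x‖ ^ 2 / r ^ 2) :=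
    (cw n).comp ((contDiff_norm_sq ℝ).div_const _)
  have ts : tsupport (fun x : EuclideanSpace ℝ (Fin 2) => w n (‖x‖ ^ 2 / r ^ 2)) ⊆
      Metric.ball 0 r := by
    refine (closure_minimal (t := {x | ‖x‖ ^ 2 / r ^ 2 ≤ 1 - 1 / ((n : ℝ) + 4)}) (fun x hx => ?_)
      (isClosed_le (by fun_prop) continuous_const)).trans fun x hx => ?_
    · by_contra k
      exact hx (wz n _ (not_le.1 k)).1
    · have k : ‖x‖ ^ 2 / r ^ 2 < 1 := lt_of_le_of_lt hx (by linarith [dpos n])
      rw [div_lt_one (by positivity)] at k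
      rw [mem_ball_zero_iff]
      exact lt_of_pow_lt_pow_left₀ 2 hr.le k
  obtain ⟨t1, t2⟩ := transfer (contDiff_infty.1 cu 2)
  simp only [norm_eP] at t1 t2
  change _ = ∫ p, g2 (fun p => w n (rho r p)) p at t1
  change _ = ∫ p, (dx (dx fun p => w n (rho r p)) p + dy (dy fun p => w n (rho r p)) p) ^ 2 at t2
  have gp := hpos.trans_le (hle n)
  refine ⟨_, cu, Metric.isCompact_of_isClosed_isBounded (isClosed_tsupport _)
    (Metric.isBounded_ball.subset ts), ts, fun k => ?_, ?_⟩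
  · rw [← t1, k] at gp
    simp at gp
  · rw [t1, t2, div_le_iff₀ gp]
    rw [eΦ, energy (cf n) (sf n)] at hn
    nlinarith [mul_le_mul_of_nonneg_left (hle n) hε.le]

end Pool.Agent.MP_3d716e_an.H88
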